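import Mathlib

/-!
# Iwasawa cohomology and class groups: definitions

Number fields are subfields of the algebraic closure `AlgebraicClosure ℚ` of `ℚ`.
-/

namespace Pool.H23.MC

open NumberField IsDedekindDomain

section

variable (p : ℕ) (k : Type) [Field k] [NumberField k]

/-- The primes above `p` of the number field `k`. -/
def above : Set (HeightOneSpectrum (𝓞 k)) := {v | (p : 𝓞 k) ∈ v.asIdeal}

/-- The class group of the ring `O_k[1/p]` of the elements of `k` which are integral outside the
primes above `p`. -/
abbrev ClS : Type := ClassGroup ((above p k).integer k)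

/-- The `p`-rank of this class group: `p ^ clRankOf` elements have order `1` or `p`. -/
noncomputable def clRankOf : ℕ := Nat.log p {x : ClS p k | x ^ p = 1}.ncard

end

/-- A number field. -/
structure NF where
  /-- the subfield of `AlgebraicClosure ℚ` -/
  fld : IntermediateField ℚ (AlgebraicClosure ℚ)
  [nf : NumberField fld]

attribute [instance] NF.nf

/-- The degree over `ℚ`. -/
noncomputable def NF.deg (K : NF) : ℕ := Module.finrank ℚ K.fld

/-- `K` is contained in `L`. -/
def NF.Le (K L : NF) : Prop := K.fld ≤ L.fld

/-- `N` is the compositum of `K` and `L`. -/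
def NF.IsSup (K L N : NF) : Prop := N.fld = K.fld ⊔ L.fld

/-- `K` is a Galois extension of `ℚ`. -/
def NF.Galois (K : NF) : Prop := IsGalois ℚ K.fld

/-- `rk_p Cl(O_K[1/p])` plus the number of primes of `K` above `p` -/
noncomputable def NF.size (K : NF) (p : ℕ) : ℕ := clRankOf p K.fld + (above p K.fld).ncard

/-- `B` is the `n`-th layer of the cyclotomic `ℤ_p`-extension of `ℚ` (`p` odd): the subfield of
degree `p ^ n` of the field of `p ^ (n + 1)`-th roots of unity. -/
def IsLayer (p n : ℕ) (B : NF) : Prop :=
  B.fld ≤ IntermediateField.adjoin ℚ {z : AlgebraicClosure ℚ | z ^ (p ^ (n + 1)) = 1} ∧ B.deg = p ^ n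

/-- `σ` is an element of the absolute Galois group `G_K` of `K`. -/
def NF.Fixed (K : NF) (σ : Gal(AlgebraicClosure ℚ/ℚ)) : Prop := ∀ x ∈ K.fld, σ x = x

/-- A vector space over `F` on which the elements of Galois groups operate.  In the following only
the operation of the elements of one group `G_K` matters. -/
structure Mod (F : Type) [Field F] where
  /-- the vector space -/
  V : Type
  [grp : AddCommGroup V]
  [mod : Module F V]
  /-- the operation -/
  act : Gal(AlgebraicClosure ℚ/ℚ) → V → V

attribute [instance] Mod.grp Mod.mod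

section

variable {F : Type} [Field F]

/-- `A` is a finite module of `G_K` over `F`: it is finite-dimensional, and `G_K` operates linearly,
through the Galois group of a number field. -/
structure IsModule (K : NF) (A : Mod F) : Prop where
  fin : Module.Finite F A.V
  lin : ∀ σ, K.Fixed σ → IsLinearMap F (A.act σ)
  one : ∀ v, A.act 1 v = v
  mul : ∀ σ τ, K.Fixed σ → K.Fixed τ → ∀ v, A.act (σ * τ) v = A.act σ (A.act τ v)
  cont : ∃ E : NF, ∀ σ, K.Fixed σ → E.Fixed σ → ∀ v, A.act σ v = v

/-- `f` is a homomorphism of modules of `G_K`. -/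
def IsHom (K : NF) (A B : Mod F) (f : A.V → B.V) : Prop :=
  IsLinearMap F f ∧ ∀ σ, K.Fixed σ → ∀ v, f (A.act σ v) = B.act σ (f v)

/-- `A = F(1)`: it has dimension one and `G_K` operates through the mod `p` cyclotomic character. -/
def IsTate (p : ℕ) (K : NF) (A : Mod F) : Prop :=
  Module.finrank F A.V = 1 ∧ ∀ σ (a : ℕ), K.Fixed σ →
    (∀ z : AlgebraicClosure ℚ, z ^ p = 1 → σ z = z ^ a) → ∀ v, A.act σ v = (a : F) • v

end

/-- **The proved facts on Iwasawa cohomology**, for an odd prime `p` and a ring `𝓡` with residue
field `F` (`𝓡` is the ring of integers of a finite extension of `ℚ_p`, `π` is a uniformiser, `Γ_K`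
is the Galois group of the cyclotomic `ℤ_p`-extension `K_∞` of `K`). -/
structure Theory (p : ℕ) (F : Type) [Field F] where
  /-- The data `(K, L, T, S, Σ)` of the problem. -/
  Data : Type 1
  /-- The field `L` of a datum. -/
  fieldL : Data → NF
  /-- The reduction `T / π`, as a module of `G_L`. -/
  red : Data → Mod F
  /-- `H^2_{Σ,Iw}(O_{L,S}, T)` is a torsion `Λ`-module. -/
  tors : Data → Prop
  /-- The `μ`-invariant of (the torsion part of) `H^2_{Σ,Iw}(O_{L,S}, T)`. -/
  mu : Data → ℕ
  /-- The datum `(K, K, 𝓡(1), S, ∅)`, `S` consisting of the archimedean and the `p`-adic places. -/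
  tateData : NF → Data
  /-- The `F[[Γ_K]]`-rank of `H^2_Iw(O_{K,S}, A)`, `A` a finite module of `G_K` over `F`. It does not
  depend on the finite set `S`, which contains the places above `p` and `∞` and the places where
  `A` ramifies. -/
  h : NF → Mod F → ℕ
  red_module : ∀ D, IsModule (fieldL D) (red D)
  /-- Independence of `Σ`, `H^2_Iw(T)/π = H^2_Iw(T/π)`, and Nakayama's lemma. -/
  q1 : ∀ D, (tors D ∧ mu D = 0) ↔ h (fieldL D) (red D) = 0
  q1_tate : ∀ K A, IsModule K A → IsTate p K A →
    ((tors (tateData K) ∧ mu (tateData K) = 0) ↔ h K A = 0)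
  /-- `cd_p = 2`: the functor `H^2` is right exact. -/
  h_surj : ∀ K A B f, IsModule K A → IsModule K B → IsHom K A B f → Function.Surjective f →
    h K B ≤ h K A
  h_exact : ∀ K A B C f g, IsModule K A → IsModule K B → IsModule K C → IsHom K A B f →
    IsHom K B C g → Function.Exact f g → Function.Surjective g → h K B ≤ h K A + h K C
  /-- Corestriction `H^2_Iw(O_{L,S}, A) → H^2_Iw(O_{K,S}, A)` is surjective (`K ⊆ L`). -/
  h_cores : ∀ K L A, K.Le L → IsModule K A → h K A ≤ h L A
  /-- The layers of `K_∞ / K` have the same Iwasawa cohomology; the rank is multiplied by the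
  degree over `K`. -/
  h_layer : ∀ n K B N A, IsLayer p n B → K.IsSup B N → IsModule K A → N.deg * h K A = K.deg * h N A
  /-- Shapiro's lemma for a Galois extension `L/K` of degree `p^a`: `F[Gal(L/K)]` is a successive
  extension of `p^a` trivial modules. -/
  h_pext : ∀ a K L A, K.Le L → L.Galois → L.deg = p ^ a * K.deg → IsModule K A →
    h L A ≤ p ^ a * h K A
  /-- Kummer theory: `H^2(O_K[1/p], F(1))` has dimension `size - 1`, and it is the module of
  coinvariants of the module of Iwasawa cohomology. -/
  h_tate : ∀ K A, IsModule K A → IsTate p K A → h K A < K.size p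
  /-- If the Iwasawa cohomology of `F(1)` is finite then the groups `H^2(O_{K_n}[1/p], F(1))`,
  which are its quotients, are bounded. -/
  tate_bdd : ∀ K A, IsModule K A → IsTate p K A → h K A = 0 →
    ∃ c : ℕ, ∀ n B N, IsLayer p n B → K.IsSup B N → N.size p ≤ c

end Pool.H23.MC
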