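import Pool.Agent.H54.Mu.Theory
import Pool.Agent.H23.MC.Defs

/-!
# The flat form of the theory and the theory of `Pool.Agent.H54.Mu.Theory`
-/

set_option autoImplicit false

noncomputable section

namespace Pool.H23.MC

open Pool.Mu54 (Qb GMod)

variable {F : Type} [Field F]

/-- the field, in the sense of `Pool.Mu54` -/
def toOld (K : NF) : Pool.Mu54.NF := ⟨K.fld, K.nf.to_finiteDimensional⟩

/-- the field, in the sense of `Defs.lean` -/
def toNew (K : Pool.Mu54.NF) : NF :=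
  @NF.mk K.fld (@NumberField.mk _ _ K.charZero (K.fin : FiniteDimensional ℚ K.fld))

theorem new_old (K : NF) : toNew (toOld K) = K := rfl

theorem old_new (K : Pool.Mu54.NF) : toOld (toNew K) = K := rfl

theorem fixed_iff (K : NF) (σ : Gal(AlgebraicClosure ℚ/ℚ)) :
    K.Fixed σ ↔ (σ : Pool.Mu54.GQ) ∈ (toOld K).gal :=
  (IntermediateField.mem_fixingSubgroup_iff K.fld σ).symm

open Classical in
/-- the module, in the sense of `Defs.lean` -/
def toMod {K : Pool.Mu54.NF} (V : GMod F K) : Mod F where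
  V := V.M
  act := fun σ v => if h : (σ : Pool.Mu54.GQ) ∈ K.gal then V.ρ ⟨σ, h⟩ v else v

theorem toMod_act {K : Pool.Mu54.NF} (V : GMod F K) (σ : Gal(AlgebraicClosure ℚ/ℚ))
    (h : (σ : Pool.Mu54.GQ) ∈ K.gal) (v : V.M) :
    (toMod V).act σ v = V.ρ ⟨σ, h⟩ v := by
  exact dif_pos h

theorem toMod_module {K : Pool.Mu54.NF} (V : GMod F K) : IsModule (toNew K) (toMod V) where
  fin := V.fin
  lin := by
    intro σ hσ
    have h := (fixed_iff (toNew K) σ).1 hσ
    constructor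
    · intro v w
      rw [toMod_act V σ h, toMod_act V σ h, toMod_act V σ h]
      exact map_add (V.ρ ⟨σ, h⟩) v w
    · intro c v
      rw [toMod_act V σ h, toMod_act V σ h]
      exact map_smul (V.ρ ⟨σ, h⟩) c v
  one := by
    intro v
    have h : ((1 : Gal(AlgebraicClosure ℚ/ℚ)) : Pool.Mu54.GQ) ∈ K.gal := K.gal.one_mem
    rw [toMod_act V 1 h]
    have : V.ρ ⟨(1 : Gal(AlgebraicClosure ℚ/ℚ)), h⟩ = 1 := map_one V.ρ
    rw [this]
    rfl
  mul := by
    intro σ τ hσ hτ v
    have h1 := (fixed_iff (toNew K) σ).1 hσ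
    have h2 := (fixed_iff (toNew K) τ).1 hτ
    have h3 : ((σ * τ : Gal(AlgebraicClosure ℚ/ℚ)) : Pool.Mu54.GQ) ∈ K.gal := K.gal.mul_mem h1 h2
    rw [toMod_act V _ h3, toMod_act V τ h2, toMod_act V σ h1]
    have : V.ρ ⟨(σ * τ : Gal(AlgebraicClosure ℚ/ℚ)), h3⟩ = V.ρ ⟨σ, h1⟩ * V.ρ ⟨τ, h2⟩ :=
      map_mul V.ρ (⟨σ, h1⟩ : K.Gal) ⟨τ, h2⟩
    rw [this]
    rfl
  cont := by
    obtain ⟨E, hE⟩ := V.cont
    refine ⟨toNew E, fun σ hσ hE' v => ?_⟩
    have h1 := (fixed_iff (toNew K) σ).1 hσ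
    have h2 := (fixed_iff (toNew E) σ).1 hE'
    rw [toMod_act V σ h1, hE ⟨σ, h1⟩ h2]
    rfl

/-- the module, in the sense of `Pool.Mu54` -/
def ofMod (K : NF) (A : Mod F) (hA : IsModule K A) : GMod F (toOld K) where
  M := A.V
  fin := hA.fin
  ρ :=
    { toFun := fun σ => (hA.lin σ.1 ((fixed_iff K σ.1).2 σ.2)).mk' _
      map_one' := by
        ext v
        exact hA.one v
      map_mul' := by
        intro σ τ
        ext v
        exact hA.mul σ.1 τ.1 ((fixed_iff K σ.1).2 σ.2) ((fixed_iff K τ.1).2 τ.2) v }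
  cont := by
    obtain ⟨E, hE⟩ := hA.cont
    refine ⟨toOld E, fun σ hσ => ?_⟩
    ext v
    exact hE σ.1 ((fixed_iff K σ.1).2 σ.2) ((fixed_iff E σ.1).2 hσ) v

theorem isTate_tate (p : ℕ) [Fact p.Prime] [CharP F p] (K : Pool.Mu54.NF) :
    IsTate p (toNew K) (toMod (Pool.Mu54.tate p F K)) := by
  refine ⟨Module.finrank_self F, ?_⟩
  intro σ a hσ hz v
  have h := (fixed_iff (toNew K) σ).1 hσ
  refine (toMod_act (Pool.Mu54.tate p F K) σ h v).trans ?_
  have h1 : ((Pool.Mu54.chi p σ : (ZMod p)ˣ) : ZMod p) = (a : ZMod p) := by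
    have h2 := modularCyclotomicCharacter.unique Qb
      (HasEnoughRootsOfUnity.natCard_rootsOfUnity Qb p) (σ : Qb ≃+* Qb) (c := (a : ZMod p)) (by
        intro t ht
        have h3 : (t : Qb) ^ p = 1 := by
          rw [mem_rootsOfUnity] at ht
          have := congrArg Units.val ht
          simpa using this
        have h4 := hz (t : Qb) h3
        show σ (t : Qb) = _
        rw [h4, ZMod.val_natCast]
        conv_lhs => rw [← Nat.div_add_mod a p, pow_add, pow_mul, h3, one_pow, one_mul])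
    exact h2.symm
  have h5 : ZMod.castHom (dvd_refl p) F ((Pool.Mu54.chi p σ : (ZMod p)ˣ) : ZMod p) = (a : F) := by
    rw [h1, map_natCast]
  exact congrArg (fun c : F => c * (show F from v)) h5

section

variable {p : ℕ} (T : Theory p F)

theorem h_congr (K : NF) (A B : Mod F) (hA : IsModule K A) (hB : IsModule K B)
    (f : A.V → B.V) (g : B.V → A.V) (hf : IsHom K A B f) (hg : IsHom K B A g)
    (h1 : Function.Surjective f) (h2 : Function.Surjective g) : T.h K A = T.h K B :=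
  le_antisymm (T.h_surj K B A g hB hA hg h2) (T.h_surj K A B f hA hB hf h1)

theorem h_ofMod (K : NF) (A : Mod F) (hA : IsModule K A) :
    T.h K (toMod (ofMod K A hA)) = T.h K A := by
  have hm : IsModule K (toMod (ofMod K A hA)) := toMod_module (ofMod K A hA)
  have key : ∀ σ, K.Fixed σ → ∀ v : A.V, (toMod (ofMod K A hA)).act σ v = A.act σ v := by
    intro σ hσ v
    have h := (fixed_iff K σ).1 hσ
    rw [toMod_act _ σ h]
    rfl
  refine h_congr T K _ _ hm hA (fun v => v) (fun v => v) ⟨⟨fun _ _ => rfl, fun _ _ => rfl⟩, ?_⟩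
    ⟨⟨fun _ _ => rfl, fun _ _ => rfl⟩, ?_⟩ (fun v => ⟨v, rfl⟩) (fun v => ⟨v, rfl⟩)
  · intro σ hσ v
    exact key σ hσ v
  · intro σ hσ v
    exact (key σ hσ v).symm

theorem h_res {K L : Pool.Mu54.NF} (V : GMod F K) (h : K ≤ L) (hm : IsModule (toNew L) (toMod V)) :
    T.h (toNew L) (toMod (V.res h)) = T.h (toNew L) (toMod V) := by
  have hm' : IsModule (toNew L) (toMod (V.res h)) := toMod_module (V.res h)
  have key : ∀ σ, (toNew L).Fixed σ → ∀ v : V.M, (toMod (V.res h)).act σ v = (toMod V).act σ v := by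
    intro σ hσ v
    have h1 := (fixed_iff (toNew L) σ).1 hσ
    have h2 : (σ : Pool.Mu54.GQ) ∈ K.gal := Pool.Mu54.NF.gal_le h h1
    exact (toMod_act (V.res h) σ h1 v).trans (toMod_act V σ h2 v).symm
  refine h_congr T (toNew L) _ _ hm' hm (fun v => v) (fun v => v)
    ⟨⟨fun _ _ => rfl, fun _ _ => rfl⟩, ?_⟩
    ⟨⟨fun _ _ => rfl, fun _ _ => rfl⟩, ?_⟩ (fun v => ⟨v, rfl⟩) (fun v => ⟨v, rfl⟩)
  · intro σ hσ v
    exact key σ hσ v
  · intro σ hσ v
    exact (key σ hσ v).symm

theorem module_mono {K L : NF} (h : K.Le L) {A : Mod F} (hA : IsModule K A) : IsModule L A where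
  fin := hA.fin
  lin := fun σ hσ => hA.lin σ (fun x hx => hσ x (h hx))
  one := hA.one
  mul := fun σ τ hσ hτ => hA.mul σ τ (fun x hx => hσ x (h hx)) (fun x hx => hτ x (h hx))
  cont := by
    obtain ⟨E, hE⟩ := hA.cont
    exact ⟨E, fun σ hσ => hE σ (fun x hx => hσ x (h hx))⟩

theorem toMod_hom {K : Pool.Mu54.NF} {V W : GMod F K} (f : GMod.Hom V W) :
    IsHom (toNew K) (toMod V) (toMod W) f.f := by
  refine ⟨⟨map_add f.f, map_smul f.f⟩, ?_⟩
  intro σ hσ v
  have h := (fixed_iff (toNew K) σ).1 hσ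
  exact ((congrArg f.f (toMod_act V σ h v)).trans (f.eq ⟨σ, h⟩ v)).trans
    (toMod_act W σ h (f.f v)).symm

theorem size_eq (p : ℕ) (K : NF) :
    K.size p = Pool.Mu54.clRank p (toOld K) + Pool.Mu54.numAbove p (toOld K) := rfl

theorem layer_iff [Fact p.Prime] (n : ℕ) (B : NF) :
    IsLayer p n B ↔ Pool.Mu54.IsLayer p n (toOld B) := Iff.rfl

/-- the theory, in the sense of `Pool.Mu54` -/
def toTheory [Fact p.Prime] [CharP F p] : Pool.Mu54.Theory p F where
  Data := T.Data
  fieldL := fun D => toOld (T.fieldL D)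
  red := fun D => ofMod (T.fieldL D) (T.red D) (T.red_module D)
  tors := T.tors
  mu := T.mu
  tateData := fun K => T.tateData (toNew K)
  h := fun K V => T.h (toNew K) (toMod V)
  q1 := fun D => by
    have h1 := T.q1 D
    rw [← h_ofMod T (T.fieldL D) (T.red D) (T.red_module D)] at h1
    exact h1
  q1_tate := fun K => T.q1_tate (toNew K) _ (toMod_module _) (isTate_tate p K)
  h_surj := fun K V W f hf =>
    T.h_surj (toNew K) _ _ f.f (toMod_module V) (toMod_module W) (toMod_hom f) hf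
  h_exact := fun K U V W f g h1 h2 =>
    T.h_exact (toNew K) _ _ _ f.f g.f (toMod_module U) (toMod_module V) (toMod_module W)
      (toMod_hom f) (toMod_hom g) h1 h2
  h_cores := fun K L hKL V => by
    have h1 := T.h_cores (toNew K) (toNew L) (toMod V) hKL (toMod_module V)
    rw [← h_res T V hKL (module_mono (K := toNew K) (L := toNew L) hKL (toMod_module V))] at h1
    exact h1
  h_layer := fun n K B V hB => by
    have hle : K ≤ K.sup B := K.le_sup B
    have h1 := T.h_layer n (toNew K) (toNew B) (toNew (K.sup B)) (toMod V) hB rfl (toMod_module V)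
    rw [← h_res T V hle (module_mono (K := toNew K) (L := toNew (K.sup B)) hle
      (toMod_module V))] at h1
    exact h1
  h_pext := fun a K L hKL V hL hd => by
    have h1 := T.h_pext a (toNew K) (toNew L) (toMod V) hKL hL hd (toMod_module V)
    rw [← h_res T V hKL (module_mono (K := toNew K) (L := toNew L) hKL (toMod_module V))] at h1
    exact h1
  h_tate := fun K => T.h_tate (toNew K) _ (toMod_module _) (isTate_tate p K)
  tate_bdd := fun K h0 => by
    obtain ⟨c, hc⟩ := T.tate_bdd (toNew K) _ (toMod_module _) (isTate_tate p K) h0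
    exact ⟨c, fun n B hB => hc n (toNew B) (toNew (K.sup B)) hB rfl⟩

open Pool.Mu54 in
/-- the theorem for the theory of `Pool.Mu54` -/
theorem old_result [Fact p.Prime] (hp : p ≠ 2) [CharP F p]
    (T : Pool.Mu54.Theory p F) (C : Set Pool.Mu54.NF)
    (hC : (∀ K : Pool.Mu54.NF, K ∈ C ↔ ¬ p ∣ K.deg) ∨ ∀ E : Pool.Mu54.NF, ∃ K ∈ C, E ≤ K) :
    (∀ D, T.tors D ∧ T.mu D = 0) ↔
      ∀ K ∈ C, ∃ (n : ℕ) (B N : Pool.Mu54.NF), Pool.Mu54.IsLayer p n B ∧ K ≤ N ∧ B ≤ N ∧
        (clRank p N + numAbove p N) * K.deg ≤ (K.sup B).deg := by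
  have hpp : p.Prime := Fact.out
  constructor
  · intro h K _
    obtain ⟨c, hc⟩ := T.tate_bdd K ((T.q1_tate K).1 (h _))
    obtain ⟨n, hn⟩ := pow_unbounded_of_one_lt (c * K.deg) hpp.one_lt
    obtain ⟨B, hB⟩ := exists_layer p hp n
    refine ⟨n, B, K.sup B, hB, K.le_sup B, K.right_le_sup B, ?_⟩
    have h1 : B.deg ≤ (K.sup B).deg := deg_mono (K.right_le_sup B)
    rw [hB.2] at h1
    exact (Nat.mul_le_mul_right _ (hc n B hB)).trans (hn.le.trans h1)
  · intro h D
    have h0 : ∀ K ∈ C, T.h K (tate p F K) = 0 := by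
      intro K hK
      obtain ⟨n, B, N, hB, hKN, hBN, hle⟩ := h K hK
      exact T.tate_zero n K B N hB hKN hBN hle
    refine (T.q1 D).2 (T.zero_of_tate (fun K hK => ?_) _ _)
    rcases hC with hC | hC
    · exact h0 K ((hC K).2 hK)
    · obtain ⟨K', hK', hle'⟩ := hC K
      have h2 := T.h_cores K K' hle' (tate p F K)
      exact Nat.le_zero.mp (h2.trans (h0 K' hK').le)

theorem criterion [Fact p.Prime] (hp : p ≠ 2) [CharP F p] (C : Set NF)
    (hC : (∀ K : NF, K ∈ C ↔ ¬ p ∣ K.deg) ∨ ∀ E : NF, ∃ K ∈ C, E.Le K) :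
    (∀ D, T.tors D ∧ T.mu D = 0) ↔
      ∀ K ∈ C, ∃ (n : ℕ) (B KB N : NF), IsLayer p n B ∧ K.IsSup B KB ∧ KB.Le N ∧
        N.size p * K.deg ≤ KB.deg := by
  have h1 := old_result hp (toTheory T) {K | toNew K ∈ C} (by
    rcases hC with hC | hC
    · left
      exact fun K => hC (toNew K)
    · right
      intro E
      obtain ⟨K, hK, hE⟩ := hC (toNew E)
      exact ⟨toOld K, hK, hE⟩)
  refine Iff.trans h1 ?_
  constructor
  · intro h K hK
    obtain ⟨n, B, N, hB, hKN, hBN, hle⟩ := h (toOld K) hK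
    exact ⟨n, toNew B, toNew ((toOld K).sup B), toNew N, hB, rfl,
      (sup_le hKN hBN : (toOld K).fld ⊔ B.fld ≤ N.fld), hle⟩
  · intro h K hK
    obtain ⟨n, B, KB, N, hB, hsup, hN, hle⟩ := h (toNew K) hK
    have hKB : KB = toNew (K.sup (toOld B)) := by
      have h2 : KB.fld = K.fld ⊔ B.fld := hsup
      cases KB with
      | @mk fld nf =>
        simp only at h2
        subst h2
        rfl
    subst hKB
    exact ⟨n, toOld B, toOld N, hB, le_trans (le_sup_left : K.fld ≤ K.fld ⊔ B.fld) hN,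
      le_trans (le_sup_right : B.fld ≤ K.fld ⊔ B.fld) hN, hle⟩

end

end Pool.H23.MC
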